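import Mathlib

/-!
Tank CM-HODGE (MP_938ce2_ag), combinatorial closing lemma (helper29).

A CM type of `E` is written as the set `Φ : Finset V` of the real places at which its sign is `+`;
the conjugate type is `Φᶜ`.  A multiset of types is balanced if at every real place exactly half of
the signs are `+`.  Every class of multisets which contains the pairs `{Φ, Φᶜ}`, is closed under
sums, under cutting a pair, and contains the quadrics `Φ + Ψ - (Φ ∩ Ψ) - (Φ ∪ Ψ)`, contains every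
balanced multiset.
-/

set_option autoImplicit false

namespace Pool.CMH

open Finset

variable {V : Type} [Fintype V] [DecidableEq V]

/-- at every place as many plus signs as minus signs -/
def Balanced (s : Multiset (Finset V)) : Prop :=
  ∀ v : V, 2 * (s.filter (fun Φ => v ∈ Φ)).card = s.card

/-- the measure which grows when two incomparable sets are replaced by meet and join -/
def meas (s : Multiset (Finset V)) : ℕ := (s.map (fun Φ => Φ.card ^ 2)).sum

theorem meas_le (s : Multiset (Finset V)) : meas s ≤ s.card * (Fintype.card V) ^ 2 := by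
  unfold meas
  have h : ∀ x ∈ s.map (fun Φ : Finset V => Φ.card ^ 2), x ≤ (Fintype.card V) ^ 2 := by
    intro x hx
    obtain ⟨Φ, -, rfl⟩ := Multiset.mem_map.mp hx
    exact Nat.pow_le_pow_left (Finset.card_le_univ Φ) 2
  have := Multiset.sum_le_card_nsmul _ _ h
  simpa using this

theorem card_sq_lt {Φ Ψ : Finset V} (h1 : ¬ Φ ⊆ Ψ) (h2 : ¬ Ψ ⊆ Φ) :
    Φ.card ^ 2 + Ψ.card ^ 2 < (Φ ∩ Ψ).card ^ 2 + (Φ ∪ Ψ).card ^ 2 := by
  have h3 := Finset.card_union_add_card_inter Φ Ψ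
  have h4 : (Φ ∩ Ψ).card < Φ.card := by
    apply Finset.card_lt_card
    refine ⟨Finset.inter_subset_left, fun h => h1 fun x hx => ?_⟩
    exact (Finset.mem_inter.mp (h hx)).2
  have h5 : (Φ ∩ Ψ).card < Ψ.card := by
    apply Finset.card_lt_card
    refine ⟨Finset.inter_subset_right, fun h => h2 fun x hx => ?_⟩
    exact (Finset.mem_inter.mp (h hx)).1
  obtain ⟨a, ha⟩ := Nat.exists_eq_add_of_lt h4
  obtain ⟨b, hb⟩ := Nat.exists_eq_add_of_lt h5
  have h6 : (Φ ∪ Ψ).card = (Φ ∩ Ψ).card + a + 1 + (b + 1) := by omega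
  rw [h6, ha, hb]
  nlinarith [Nat.zero_le ((Φ ∩ Ψ).card), Nat.zero_le a, Nat.zero_le b]

/-- exchange of a pair -/
theorem exch (Alg : Multiset (Finset V) → Prop)
    (hadd : ∀ s t, Alg s → Alg t → Alg (s + t))
    (hcut : ∀ s (Φ : Finset V), Alg (s + {Φ, Φᶜ}) → Alg s)
    (hquad : ∀ Φ Ψ : Finset V, Alg {Φ, Ψ, (Φ ∩ Ψ)ᶜ, (Φ ∪ Ψ)ᶜ})
    (Φ Ψ : Finset V) (r : Multiset (Finset V)) (h : Alg ((Φ ∩ Ψ) ::ₘ (Φ ∪ Ψ) ::ₘ r)) :
    Alg (Φ ::ₘ Ψ ::ₘ r) := by
  have h1 := hadd _ _ (hquad Φ Ψ) h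
  apply hcut _ (Φ ∩ Ψ)
  apply hcut _ (Φ ∪ Ψ)
  convert h1 using 1
  simp only [Multiset.insert_eq_cons, ← Multiset.singleton_add]
  abel

theorem balanced_exch {Φ Ψ : Finset V} {r : Multiset (Finset V)} (h : Balanced (Φ ::ₘ Ψ ::ₘ r)) :
    Balanced ((Φ ∩ Ψ) ::ₘ (Φ ∪ Ψ) ::ₘ r) := by
  intro v
  have := h v
  by_cases h1 : v ∈ Φ <;> by_cases h2 : v ∈ Ψ <;>
    simp [Multiset.filter_cons, h1, h2] at this ⊢ <;> omega

/-- a nonempty balanced chain contains both extreme types -/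
theorem top_mem {s : Multiset (Finset V)} (hs : Balanced s) (h0 : s ≠ 0)
    (hch : ∀ Φ ∈ s, ∀ Ψ ∈ s, Φ ⊆ Ψ ∨ Ψ ⊆ Φ) : (Finset.univ : Finset V) ∈ s := by
  classical
  obtain ⟨Φ, hΦ, hmax⟩ : ∃ Φ ∈ s, ∀ Ψ ∈ s, Ψ.card ≤ Φ.card := by
    obtain ⟨Φ₀, hΦ₀⟩ := Multiset.exists_mem_of_ne_zero h0
    obtain ⟨Φ, hΦ, hm⟩ := Finset.exists_max_image s.toFinset Finset.card
      ⟨Φ₀, Multiset.mem_toFinset.mpr hΦ₀⟩
    exact ⟨Φ, Multiset.mem_toFinset.mp hΦ, fun Ψ hΨ => hm Ψ (Multiset.mem_toFinset.mpr hΨ)⟩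
  have hsub : ∀ Ψ ∈ s, Ψ ⊆ Φ := by
    intro Ψ hΨ
    rcases hch Ψ hΨ Φ hΦ with h | h
    · exact h
    · exact (Finset.eq_of_subset_of_card_le h (hmax Ψ hΨ)).ge
  have hu : Φ = Finset.univ := by
    rw [Finset.eq_univ_iff_forall]
    intro v
    have h1 := hs v
    have h2 : 0 < s.card := Multiset.card_pos.mpr h0
    have h3 : 0 < (s.filter (fun Φ => v ∈ Φ)).card := by omega
    obtain ⟨Ψ, hΨ⟩ := Multiset.exists_mem_of_ne_zero (Multiset.card_pos.mp h3)
    rw [Multiset.mem_filter] at hΨ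
    exact hsub Ψ hΨ.1 hΨ.2
  rwa [← hu]

theorem bot_mem {s : Multiset (Finset V)} (hs : Balanced s) (h0 : s ≠ 0)
    (hch : ∀ Φ ∈ s, ∀ Ψ ∈ s, Φ ⊆ Ψ ∨ Ψ ⊆ Φ) : (∅ : Finset V) ∈ s := by
  classical
  obtain ⟨Φ, hΦ, hmin⟩ : ∃ Φ ∈ s, ∀ Ψ ∈ s, Φ.card ≤ Ψ.card := by
    obtain ⟨Φ₀, hΦ₀⟩ := Multiset.exists_mem_of_ne_zero h0
    obtain ⟨Φ, hΦ, hm⟩ := Finset.exists_min_image s.toFinset Finset.card
      ⟨Φ₀, Multiset.mem_toFinset.mpr hΦ₀⟩
    exact ⟨Φ, Multiset.mem_toFinset.mp hΦ, fun Ψ hΨ => hm Ψ (Multiset.mem_toFinset.mpr hΨ)⟩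
  have hsub : ∀ Ψ ∈ s, Φ ⊆ Ψ := by
    intro Ψ hΨ
    rcases hch Ψ hΨ Φ hΦ with h | h
    · exact (Finset.eq_of_subset_of_card_le h (hmin Ψ hΨ)).ge
    · exact h
  have hu : Φ = ∅ := by
    rw [Finset.eq_empty_iff_forall_notMem]
    intro v hv
    have h1 := hs v
    have h2 : 0 < s.card := Multiset.card_pos.mpr h0
    have h3 : (s.filter (fun Φ => v ∈ Φ)) = s := by
      rw [Multiset.filter_eq_self]
      intro Ψ hΨ
      exact hsub Ψ hΨ hv
    rw [h3] at h1
    omega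
  rwa [← hu]

theorem balanced_of_cons {s : Multiset (Finset V)}
    (h : Balanced ((Finset.univ : Finset V) ::ₘ (∅ : Finset V) ::ₘ s)) : Balanced s := by
  intro v
  have := h v
  simp [Multiset.filter_cons] at this
  omega

/-- the closing lemma: all balanced multisets are reached -/
theorem all_balanced [Nonempty V] (Alg : Multiset (Finset V) → Prop) (hzero : Alg 0)
    (hdiv : ∀ Φ : Finset V, Alg {Φ, Φᶜ})
    (hadd : ∀ s t, Alg s → Alg t → Alg (s + t))
    (hcut : ∀ s (Φ : Finset V), Alg (s + {Φ, Φᶜ}) → Alg s)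
    (hquad : ∀ Φ Ψ : Finset V, Alg {Φ, Ψ, (Φ ∩ Ψ)ᶜ, (Φ ∪ Ψ)ᶜ}) :
    ∀ s : Multiset (Finset V), Balanced s → Alg s := by
  classical
  have main : ∀ n : ℕ, ∀ m : ℕ, ∀ s : Multiset (Finset V), s.card = n →
      n * (Fintype.card V) ^ 2 ≤ meas s + m → Balanced s → Alg s := by
    intro n
    induction n using Nat.strong_induction_on with
    | _ n ihn =>
      intro m
      induction m using Nat.strong_induction_on with
      | _ m ihm =>
        intro s hn hm hs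
        by_cases h0 : s = 0
        · rw [h0]; exact hzero
        by_cases hch : ∀ Φ ∈ s, ∀ Ψ ∈ s, Φ ⊆ Ψ ∨ Ψ ⊆ Φ
        · have hb := bot_mem hs h0 hch
          obtain ⟨s₁, rfl⟩ := Multiset.exists_cons_of_mem (top_mem hs h0 hch)
          rcases Multiset.mem_cons.mp hb with hb | hb
          · exact absurd hb.symm (Finset.univ_nonempty (α := V)).ne_empty
          · obtain ⟨s₂, rfl⟩ := Multiset.exists_cons_of_mem hb
            have hs2 : Balanced s₂ := balanced_of_cons hs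
            have hc : s₂.card < n := by
              rw [← hn]; simp
            have h2 := ihn s₂.card hc (s₂.card * (Fintype.card V) ^ 2) s₂ rfl (Nat.le_add_left _ _) hs2
            have h3 := hadd _ _ (hdiv Finset.univ) h2
            rw [Finset.compl_univ] at h3
            simpa only [Multiset.insert_eq_cons, Multiset.cons_add, Multiset.singleton_add] using h3
        · push Not at hch
          obtain ⟨Φ, hΦ, Ψ, hΨ, h1, h2⟩ := hch
          obtain ⟨s₁, rfl⟩ := Multiset.exists_cons_of_mem hΦ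
          have hΨ' : Ψ ∈ s₁ := by
            rcases Multiset.mem_cons.mp hΨ with h | h
            · exact absurd h.le h2
            · exact h
          obtain ⟨s₂, rfl⟩ := Multiset.exists_cons_of_mem hΨ'
          apply exch Alg hadd hcut hquad
          have h3 : meas (Φ ::ₘ Ψ ::ₘ s₂) < meas ((Φ ∩ Ψ) ::ₘ (Φ ∪ Ψ) ::ₘ s₂) := by
            have := card_sq_lt h1 h2
            simp only [meas, Multiset.map_cons, Multiset.sum_cons]
            omega
          have h4 : ((Φ ∩ Ψ) ::ₘ (Φ ∪ Ψ) ::ₘ s₂).card = n := by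
            rw [← hn]; simp
          have h5 := meas_le ((Φ ∩ Ψ) ::ₘ (Φ ∪ Ψ) ::ₘ s₂)
          rw [h4] at h5
          have h6 : 0 < m := by omega
          exact ihm (m - 1) (by omega) _ h4 (by omega) (balanced_exch hs)
  intro s hs
  exact main s.card _ s rfl (Nat.le_add_left _ _) hs

end Pool.CMH
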