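import Pool.Agent.Lib.MP_938ce2_cm.Quad

/-!
Tank CMH (MP_938ce2_ag), closing lemma, second part (helper29): the inductive class `IsAlg` over an
arbitrary four-place generator `Gen`, and the theorem that every balanced multiset is in it as soon
as `Gen Φ₁ Φ₂ Ψ₁ Ψ₂` holds for all types which contain a common place `v₁` and satisfy
`Φ₁ + Φ₂ = Ψ₁ + Ψ₂` (same intersection, same union).
-/

set_option autoImplicit false

namespace Pool.CMH

open Finset

variable {V : Type} [Fintype V] [DecidableEq V]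

/-- the least class containing the pairs `{Φ, Φᶜ}` and the generators, closed under sums and under
cutting a pair -/
inductive IsAlgG (Gen : Finset V → Finset V → Finset V → Finset V → Prop) :
    Multiset (Finset V) → Prop
  | pair (Φ : Finset V) : IsAlgG Gen {Φ, Φᶜ}
  | ball (Φ₁ Φ₂ Ψ₁ Ψ₂ : Finset V) : Gen Φ₁ Φ₂ Ψ₁ Ψ₂ → IsAlgG Gen {Φ₁, Φ₂, Ψ₁ᶜ, Ψ₂ᶜ}
  | add (s t : Multiset (Finset V)) : IsAlgG Gen s → IsAlgG Gen t → IsAlgG Gen (s + t)
  | cut (s : Multiset (Finset V)) (Φ : Finset V) : IsAlgG Gen (s + {Φ, Φᶜ}) → IsAlgG Gen s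

/-- conversely the class only contains balanced multisets if the generators are balanced -/
theorem balanced_add {s t : Multiset (Finset V)} (hs : Balanced s) (ht : Balanced t) :
    Balanced (s + t) := by
  intro v
  have h1 := hs v
  have h2 := ht v
  simp only [Multiset.filter_add, Multiset.card_add]
  omega

theorem balanced_pair (Φ : Finset V) : Balanced {Φ, Φᶜ} := by
  intro v
  by_cases h : v ∈ Φ <;> simp [Multiset.filter_cons, Multiset.filter_singleton, h]

theorem balanced_cut {s : Multiset (Finset V)} {Φ : Finset V} (h : Balanced (s + {Φ, Φᶜ})) :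
    Balanced s := by
  intro v
  have h1 := h v
  have h2 := balanced_pair Φ v
  simp only [Multiset.filter_add, Multiset.card_add] at h1
  omega

/-- every balanced multiset is in the class -/
theorem isAlgG_of_balanced [Nonempty V]
    (Gen : Finset V → Finset V → Finset V → Finset V → Prop)
    (hgen : ∀ (v₁ : V) (Φ₁ Φ₂ Ψ₁ Ψ₂ : Finset V), v₁ ∈ Φ₁ → v₁ ∈ Φ₂ → v₁ ∈ Ψ₁ → v₁ ∈ Ψ₂ →
      Φ₁ ∩ Φ₂ = Ψ₁ ∩ Ψ₂ → Φ₁ ∪ Φ₂ = Ψ₁ ∪ Ψ₂ → Gen Φ₁ Φ₂ Ψ₁ Ψ₂)
    (s : Multiset (Finset V)) (hs : Balanced s) : IsAlgG Gen s := by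
  classical
  obtain ⟨v₁⟩ := (inferInstance : Nonempty V)
  haveI : Nonempty V := ⟨v₁⟩
  refine all_balanced (IsAlgG Gen) ?_ IsAlgG.pair IsAlgG.add IsAlgG.cut ?_ s hs
  · apply IsAlgG.cut 0 (∅ : Finset V)
    rw [zero_add]
    exact IsAlgG.pair ∅
  · intro Φ Ψ
    by_cases h1 : v₁ ∈ Φ <;> by_cases h2 : v₁ ∈ Ψ
    · apply IsAlgG.ball
      refine hgen v₁ _ _ _ _ ?_ ?_ ?_ ?_ ?_ ?_
      · exact h1
      · exact h2
      · simp [h1, h2]
      · simp [h1]
      · ext x
        simp only [Finset.mem_inter, Finset.mem_union]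
        tauto
      · ext x
        simp only [Finset.mem_inter, Finset.mem_union]
        tauto
    · have h := IsAlgG.ball (Gen := Gen) Φ (Φ ∩ Ψ)ᶜ Ψᶜ (Φ ∪ Ψ) (by
        refine hgen v₁ _ _ _ _ ?_ ?_ ?_ ?_ ?_ ?_
        · exact h1
        · simp [h2]
        · simp [h2]
        · simp [h1]
        · ext x
          simp only [Finset.mem_inter, Finset.mem_union, Finset.mem_compl]
          tauto
        · ext x
          simp only [Finset.mem_inter, Finset.mem_union, Finset.mem_compl]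
          tauto)
      rw [compl_compl] at h
      convert h using 1
      simp only [Multiset.insert_eq_cons]
      rw [Multiset.cons_swap Ψ]
    · have h := IsAlgG.ball (Gen := Gen) Ψ (Φ ∩ Ψ)ᶜ Φᶜ (Φ ∪ Ψ) (by
        refine hgen v₁ _ _ _ _ ?_ ?_ ?_ ?_ ?_ ?_
        · exact h2
        · simp [h1]
        · simp [h1]
        · simp [h2]
        · ext x
          simp only [Finset.mem_inter, Finset.mem_union, Finset.mem_compl]
          tauto
        · ext x
          simp only [Finset.mem_inter, Finset.mem_union, Finset.mem_compl]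
          tauto)
      rw [compl_compl] at h
      convert h using 1
      simp only [Multiset.insert_eq_cons]
      rw [Multiset.cons_swap Φ, Multiset.cons_swap Φ (Φ ∩ Ψ)ᶜ]
    · have h := IsAlgG.ball (Gen := Gen) (Φ ∩ Ψ)ᶜ (Φ ∪ Ψ)ᶜ Φᶜ Ψᶜ (by
        refine hgen v₁ _ _ _ _ ?_ ?_ ?_ ?_ ?_ ?_
        · simp [h1]
        · simp [h1, h2]
        · simp [h1]
        · simp [h2]
        · ext x
          simp only [Finset.mem_inter, Finset.mem_union, Finset.mem_compl]
          tauto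
        · ext x
          simp only [Finset.mem_inter, Finset.mem_union, Finset.mem_compl]
          tauto)
      rw [compl_compl, compl_compl] at h
      convert h using 1
      simp only [Multiset.insert_eq_cons, ← Multiset.singleton_add]
      abel

/-- and conversely, if the generators satisfy `Φ₁ + Φ₂ = Ψ₁ + Ψ₂` -/
theorem balanced_of_isAlgG
    (Gen : Finset V → Finset V → Finset V → Finset V → Prop)
    (hbal : ∀ (Φ₁ Φ₂ Ψ₁ Ψ₂ : Finset V), Gen Φ₁ Φ₂ Ψ₁ Ψ₂ →
      Φ₁ ∩ Φ₂ = Ψ₁ ∩ Ψ₂ ∧ Φ₁ ∪ Φ₂ = Ψ₁ ∪ Ψ₂)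
    (s : Multiset (Finset V)) (hs : IsAlgG Gen s) : Balanced s := by
  induction hs with
  | pair Φ => exact balanced_pair Φ
  | ball Φ₁ Φ₂ Ψ₁ Ψ₂ h =>
    obtain ⟨h1, h2⟩ := hbal _ _ _ _ h
    intro v
    have h3 := congrArg (fun S => v ∈ S) h1
    have h4 := congrArg (fun S => v ∈ S) h2
    simp only [Finset.mem_inter, Finset.mem_union, eq_iff_iff] at h3 h4
    by_cases a : v ∈ Φ₁ <;> by_cases b : v ∈ Φ₂ <;> by_cases c : v ∈ Ψ₁ <;> by_cases e : v ∈ Ψ₂ <;>
      simp [Multiset.filter_cons, Multiset.filter_singleton, a, b, c, e] at h3 h4 ⊢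
  | add s t _ _ ih1 ih2 => exact balanced_add ih1 ih2
  | cut s Φ _ ih => exact balanced_cut ih

end Pool.CMH
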